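import Pool.Agent.TH98.CF.Fin0
import Pool.Agent.TH716.CF.Emp

set_option autoImplicit false

/-! The final step for powers of curvilinear ideals in every characteristic. -/

namespace Pool.Agent.TH98.CF

open Finset Pool.Agent.TH603.EL Pool.Agent.TH716.CF

/-- there are infinite fields of every characteristic -/
theorem exists_infinite {p : ℕ} (hp : p = 0 ∨ p.Prime) :
    ∃ (K : Type) (_ : Field K) (_ : CharP K p), Infinite K := by
  rcases hp with rfl | hp
  · exact ⟨ℚ, inferInstance, inferInstance, inferInstance⟩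
  · haveI : Fact p.Prime := ⟨hp⟩
    exact ⟨AlgebraicClosure (ZMod p), inferInstance, inferInstance, inferInstance⟩

/-- the germ `x = x0 + u`, `y = 1` -/
noncomputable def gm {K : Type} [Field K] (x : K) (hx : x ≠ 0) : Lau K →+* PowerSeries K :=
  (PowerSeries.constantCoeff (R := PowerSeries K)).comp (Psi x hx)

theorem gm_const {K : Type} [Field K] (x : K) (hx : x ≠ 0) (c : K) :
    gm x hx (AddMonoidAlgebra.single 0 c) = PowerSeries.C c := by
  unfold gm
  rw [RingHom.comp_apply, Psi_single]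
  simp

theorem gm_x {K : Type} [Field K] (x : K) (hx : x ≠ 0) :
    gm x hx (AddMonoidAlgebra.single (1, 0) 1) = PowerSeries.C x + PowerSeries.X := by
  unfold gm
  rw [RingHom.comp_apply, Psi_single]
  simp [xU_val]

theorem gm_y {K : Type} [Field K] (x : K) (hx : x ≠ 0) :
    gm x hx (AddMonoidAlgebra.single (0, 1) 1) = 1 := by
  unfold gm
  rw [RingHom.comp_apply, Psi_single]
  simp [yU_val]

/-- emptiness from rows which are shorter than the number of conditions -/
theorem EmpG_rows {p : ℕ} (hp : p = 0 ∨ p.Prime) {ι : Type} [Fintype ι] {r w : ι → ℕ}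
    {S : Set (ℤ × ℤ)} (hS0 : ∀ m ∈ S, 0 ≤ m.2)
    (hrow : ∀ (k : ℕ), ∀ m ∈ S, ∀ m' ∈ S, (k : ℤ) ≤ m.2 → (k : ℤ) ≤ m'.2 →
      m'.1 - m.1 < ∑ i, ((r i * (w i - k) : ℕ) : ℤ)) : EmpG p r w S := by
  classical
  obtain ⟨K, _, _, hK⟩ := exists_infinite hp
  have hinf : ({0}ᶜ : Set K).Infinite := (Set.finite_singleton (0 : K)).infinite_compl
  let e : ℕ ↪ ({0}ᶜ : Set K) := hinf.natEmbedding
  let x : ι → K := fun i => (e (Fintype.equivFin ι i) : K)
  have hinj : Function.Injective x := by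
    intro i j hij
    have h1 := e.injective (Subtype.ext hij)
    exact (Fintype.equivFin ι).injective (Fin.ext h1)
  have hx : ∀ i, x i ≠ 0 := fun i => (e (Fintype.equivFin ι i)).2
  refine ⟨K, inferInstance, inferInstance, fun i => gm (x i) (hx i), fun i => ⟨gm_const _ _, ?_⟩, ?_⟩
  · rw [gm_x]
    simp
  · intro f hfS hf
    exact final_rows hinj hx (fun i => gm_const _ _) (fun i => gm_x _ _) (fun i => gm_y _ _) hS0 hrow
      (fun m hm => hfS m (Finsupp.mem_support_iff.1 hm)) hf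

theorem EmpG_final {p : ℕ} (hp : p = 0 ∨ p.Prime) {ι : Type} [Fintype ι] {r w : ι → ℕ}
    (hr : ∀ i, 1 ≤ r i) {S : Set (ℤ × ℤ)} (A B : ℕ → ℤ)
    (hS : ∀ m ∈ S, 0 ≤ m.2 ∧ ∀ j : ℕ, (j : ℤ) ≤ m.2 → A j ≤ m.1 ∧ m.1 ≤ B j)
    (hw : ∀ j : ℕ, B j - A j < ∑ i, ((r i * (w i - j) : ℕ) : ℤ)) : EmpG p r w S := by
  have _ := hr
  refine EmpG_rows hp (fun m hm => (hS m hm).1) fun k m hm m' hm' h1 h2 => ?_
  have h3 := (hS m hm).2 k h1
  have h4 := (hS m' hm').2 k h2
  have h5 := hw k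
  linarith [h3.1, h4.2]

end Pool.Agent.TH98.CF
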