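import Pool.Agent.TH98.CF.Final
import Pool.Agent.TH716.CF.Defs

set_option autoImplicit false

/-! The strict case: emptiness of the triangle of the tube at a suitable radius. -/

namespace Pool.Agent.TH98.CF

open Finset Pool.Agent.TH603.EL Pool.Agent.TH716.CF

/-- emptiness of the triangle for every radius with `3 (√n - 1 - τ)` integral -/
theorem strict_tau {p : ℕ} (hp : p = 0 ∨ p.Prime) {ι : Type} [Fintype ι] {r w : ι → ℕ} {d : ℕ}
    (hn : 9 ≤ ∑ i, r i) (h : √((∑ i, r i : ℕ) : ℝ) * d < ∑ i, (r i : ℝ) * w i) {τ : ℝ} {k : ℤ}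
    (hk : 3 * √((∑ i, r i : ℕ) : ℝ) - k = 3 * (1 + τ)) : EmpG p r w (Tri d τ) := by
  classical
  set n : ℕ := ∑ i, r i with hndef
  set s : ℝ := √(n : ℝ) with hs
  have hs2 : s * s = n := Real.mul_self_sqrt (Nat.cast_nonneg n)
  have hn9 : (9 : ℝ) ≤ n := by exact_mod_cast hn
  have hs3 : 3 ≤ s := by
    rw [hs]
    apply Real.le_sqrt_of_sq_le
    linarith
  have hd0 : (0 : ℝ) ≤ d := Nat.cast_nonneg d
  let S1 : Set (ℤ × ℤ) := {m | 0 ≤ m.2 ∧ -(d * (1 + τ)) + 3 * s * m.2 ≤ (m.1 : ℝ) ∧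
    (m.1 : ℝ) ≤ d * (2 - τ) + (3 * s - 9) * m.2}
  let S2 : Set (ℤ × ℤ) := {m | 0 ≤ m.2 ∧ -(d * (1 + τ)) + 3 * s * m.2 ≤ (m.1 : ℝ) ∧
    (m.1 : ℝ) ≤ d * s - d * (1 + τ) - (n - 3 * s) * m.2}
  have h2 : EmpG p r w S2 := by
    apply EmpG_rows hp
    · intro m hm
      exact hm.1
    · rintro j ⟨a, b⟩ ⟨hb, h1, -⟩ ⟨a', b'⟩ ⟨hb', -, h2⟩ hj hj'
      simp only at h1 h2 hj hj' hb hb' ⊢
      have hjb : (j : ℝ) ≤ b := by exact_mod_cast hj
      have hjb' : (j : ℝ) ≤ b' := by exact_mod_cast hj'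
      have e1 : 3 * s * j ≤ 3 * s * b := mul_le_mul_of_nonneg_left hjb (by linarith)
      have hns : 0 ≤ (n : ℝ) - 3 * s := by
        rw [← hs2]
        have : 0 ≤ s * (s - 3) := mul_nonneg (by linarith) (by linarith)
        linarith
      have e2 : (n - 3 * s) * j ≤ (n - 3 * s) * (b' : ℝ) := mul_le_mul_of_nonneg_left hjb' hns
      have e3 : ((a' : ℝ) - a) ≤ d * s - n * j := by linarith
      have e4 : (∑ i, (r i : ℝ) * w i) - n * j ≤ ((∑ i, ((r i * (w i - j) : ℕ) : ℤ) : ℤ) : ℝ) := by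
        have e5 : (n : ℝ) * j = ∑ i, (r i : ℝ) * j := by
          rw [hndef, Nat.cast_sum, sum_mul]
        rw [e5, ← sum_sub_distrib]
        push_cast
        apply sum_le_sum
        intro i _
        rw [← mul_sub]
        apply mul_le_mul_of_nonneg_left _ (Nat.cast_nonneg _)
        have : (w i : ℝ) ≤ ((w i - j : ℕ) : ℝ) + j := by
          exact_mod_cast (by omega : w i ≤ (w i - j) + j)
        linarith
      have e6 : ((a' : ℝ) - a) < ((∑ i, ((r i * (w i - j) : ℕ) : ℤ) : ℤ) : ℝ) := by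
        rw [mul_comm] at h
        linarith
      exact_mod_cast e6
  have h1 : EmpG p r w S1 := by
    refine EmpG.flat0 h2 ?_
    rintro a b T l ⟨hb, -, hr⟩ ⟨-, hl, -⟩ hl0 hlT
    simp only at hb hr hl
    push_cast at hl
    have hb0 : (0 : ℝ) ≤ b := by exact_mod_cast hb
    have hlT' : (l : ℝ) ≤ T := by exact_mod_cast hlT
    have e1 : 3 * s * (b + l) ≤ 3 * s * (b + T) :=
      mul_le_mul_of_nonneg_left (by linarith) (by linarith)
    refine ⟨hl0, ?_, ?_⟩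
    · simp only
      have : 0 ≤ 3 * s * b := by positivity
      linarith
    · simp only
      -- 9 a = 3 s a - (3 s - 9) a
      have e2 : (s - 3) * (3 * s * (b + l) - d * (1 + τ)) ≤ (s - 3) * a :=
        mul_le_mul_of_nonneg_left (by linarith) (by linarith)
      have e3 : s * a ≤ s * (d * (2 - τ) + (3 * s - 9) * b) :=
        mul_le_mul_of_nonneg_left hr (by linarith)
      have e4 : 3 * (a : ℝ) ≤ s * (d * (2 - τ) + (3 * s - 9) * b) -
          (s - 3) * (3 * s * (b + l) - d * (1 + τ)) := by linarith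
      have e5 : s * (d * (2 - τ) + (3 * s - 9) * b) - (s - 3) * (3 * s * (b + l) - d * (1 + τ)) =
          3 * (d * s - d * (1 + τ) - (n - 3 * s) * l) := by
        rw [← hs2]; ring
      rw [e5] at e4
      linarith
  refine h1.shear k ?_
  rintro ⟨a, b⟩ ⟨hb, hl, hr⟩
  simp only at hb hl hr
  have hkr : (k : ℝ) = 3 * s - 3 * (1 + τ) := by linarith
  refine ⟨hb, ?_, ?_⟩
  · simp only
    push_cast
    rw [hkr]
    linarith
  · simp only
    push_cast
    rw [hkr]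
    linarith

theorem strict {p : ℕ} (hp : p = 0 ∨ p.Prime) {ι : Type} [Fintype ι] {r w : ι → ℕ} {d : ℕ}
    (hn : 9 ≤ ∑ i, r i) (h : √((∑ i, r i : ℕ) : ℝ) * d < ∑ i, (r i : ℝ) * w i) :
    ∃ τ : ℝ, 0 < τ ∧ τ < 1 ∧ EmpG p r w (Tri d τ) := by
  obtain ⟨k, h1, h2⟩ : ∃ k : ℤ, 3 < 3 * √((∑ i, r i : ℕ) : ℝ) - k ∧
      3 * √((∑ i, r i : ℕ) : ℝ) - k < 6 := by
    generalize 3 * √((∑ i, r i : ℕ) : ℝ) = z
    have h1 := Int.floor_le z
    have h2 := Int.lt_floor_add_one z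
    refine ⟨⌊z⌋ - 4, ?_, ?_⟩
    · push_cast; linarith
    · push_cast; linarith
  refine ⟨(3 * √((∑ i, r i : ℕ) : ℝ) - k) / 3 - 1, by linarith, by linarith,
    strict_tau hp hn h (k := k) ?_⟩
  ring

end Pool.Agent.TH98.CF
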