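import Pool.Agent.TH603.EL.Low
import Pool.Agent.TH603.EL.Scal2

set_option autoImplicit false

/-! Flattening over an arbitrary field: the substitution `y ↦ 1 + t y`. -/

namespace Pool.Agent.TH98.CF

open Finset Pool.Agent.TH603.EL Pool.Agent.TH603.EL.Scal2

section aux
variable {K : Type} [Field K]

theorem cf_tz_mul' (x : HR K) (b a : ℝ) (k l i j : ℤ) :
    cf (tz K b k l * x) a i j = cf x (a - b) (i - k) (j - l) := by
  unfold cf tz
  have h := HahnSeries.coeff_single_mul (r := (AddMonoidAlgebra.single (k, l) 1 : Lau K)) (x := x)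
    (a := a) (b := b)
  rw [h, AddMonoidAlgebra.coeff_single_mul_apply, one_mul]
  congr 1
  ext
  · simp; ring
  · simp; ring

theorem cf_sum {κ : Type*} (s : Finset κ) (x : κ → HR K) (a : ℝ) (i j : ℤ) :
    cf (∑ k ∈ s, x k) a i j = ∑ k ∈ s, cf (x k) a i j := by
  classical
  induction s using Finset.induction_on with
  | empty => simp [cf]
  | insert k s hk ih => rw [sum_insert hk, sum_insert hk, cf_add, ih]

/-- no `z` occurs -/
def XF (x : HR K) : Prop := ∀ a i j, i ≠ 0 → cf x a i j = 0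

theorem XF.mul {x y : HR K} (hx : XF x) (hy : XF y) : XF (x * y) := by
  intro a i j hi
  rw [cf_mul]
  apply finsum_eq_zero_of_forall_eq_zero
  intro p
  unfold sm
  by_cases h : p.2.1 = 0
  · rw [h, sub_zero, hy _ _ _ hi, mul_zero]
  · rw [hx _ _ _ h, zero_mul]

theorem XF.incl (c : HK K) : XF (incl c) := by
  intro a i j hi
  rw [cf_incl, if_neg]
  exact fun h => hi h.1

theorem XF.one : XF (1 : HR K) := by
  have : (1 : HR K) = Pool.Agent.TH603.EL.incl 1 := (map_one _).symm
  rw [this]; exact XF.incl 1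

theorem XF.sum {κ : Type*} (s : Finset κ) (x : κ → HR K) (h : ∀ k ∈ s, XF (x k)) :
    XF (∑ k ∈ s, x k) := by
  intro a i j hi
  rw [cf_sum]
  exact sum_eq_zero fun k hk => h k hk a i j hi

theorem XF.tz (a : ℝ) (j : ℤ) : XF (tz K a 0 j) := by
  intro b i j' hi
  have h := cf_tz_mul' (1 : HR K) a b 0 j i j'
  rw [mul_one] at h
  rw [h]
  exact XF.one _ _ _ (by omega)

theorem XF.add {x y : HR K} (hx : XF x) (hy : XF y) : XF (x + y) := by
  intro a i j hi
  rw [cf_add, hx a i j hi, hy a i j hi, add_zero]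

theorem cf_tz (b a : ℝ) (k l i j : ℤ) :
    cf (tz K b k l) a i j = if a = b ∧ i = k ∧ j = l then 1 else 0 := by
  classical
  have h := cf_tz_mul' (1 : HR K) b a k l i j
  rw [mul_one] at h
  rw [h]
  have h1 : (1 : HR K) = Pool.Agent.TH603.EL.incl 1 := (map_one _).symm
  rw [h1, cf_incl, HahnSeries.coeff_one]
  by_cases h2 : a = b ∧ i = k ∧ j = l
  · obtain ⟨h3, h4, h5⟩ := h2
    simp [h3, h4, h5]
  · rw [if_neg h2]
    by_cases h3 : i - k = 0 ∧ j - l = 0
    · rw [if_pos h3, if_neg]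
      intro h4
      apply h2
      exact ⟨by linarith, by omega, by omega⟩
    · rw [if_neg h3]

theorem cf_one (a : ℝ) (i j : ℤ) :
    cf (1 : HR K) a i j = if a = 0 ∧ i = 0 ∧ j = 0 then 1 else 0 := by
  classical
  have h1 : (1 : HR K) = Pool.Agent.TH603.EL.incl 1 := (map_one _).symm
  rw [h1, cf_incl, HahnSeries.coeff_one]
  by_cases h2 : a = 0 ∧ i = 0 ∧ j = 0
  · obtain ⟨h3, h4, h5⟩ := h2
    simp [h3, h4, h5]
  · rw [if_neg h2]
    split_ifs with h3 h4
    · exact absurd ⟨h4, h3.1, h3.2⟩ h2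
    · rfl
    · rfl

/-- the series `1 + t y` -/
noncomputable def uu (K : Type) [Field K] : HR K := 1 + tz K 1 0 1

/-- its inverse -/
noncomputable def vv (K : Type) [Field K] : HR K :=
  HahnSeries.ofPowerSeries ℝ (Lau K)
    (PowerSeries.mk fun n => AddMonoidAlgebra.single ((0 : ℤ), (n : ℤ)) ((-1) ^ n))

theorem cf_vv (a : ℝ) (i j : ℤ) :
    cf (vv K) a i j = if i = 0 ∧ 0 ≤ j ∧ a = j then (-1) ^ j.toNat else 0 := by
  classical
  unfold vv cf
  by_cases ha : ∃ n : ℕ, a = n
  · obtain ⟨n, rfl⟩ := ha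
    rw [HahnSeries.ofPowerSeries_apply_coeff, PowerSeries.coeff_mk, AddMonoidAlgebra.coeff_single,
      Finsupp.single_apply]
    by_cases h : ((0 : ℤ), (n : ℤ)) = (i, j)
    · rw [if_pos h]
      simp only [Prod.mk.injEq] at h
      rw [if_pos]
      · rw [← h.2]; simp
      · refine ⟨h.1.symm, by omega, ?_⟩
        rw [← h.2]; simp
    · rw [if_neg h, if_neg]
      rintro ⟨h1, h2, h3⟩
      apply h
      rw [h1]
      congr 1
      exact_mod_cast h3
  · have h1 : (HahnSeries.ofPowerSeries ℝ (Lau K)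
        (PowerSeries.mk fun n => AddMonoidAlgebra.single ((0 : ℤ), (n : ℤ)) ((-1) ^ n))).coeff a = 0 := by
      rw [HahnSeries.ofPowerSeries_apply]
      apply HahnSeries.embDomain_of_notMem_range
      rintro ⟨n, hn⟩
      exact ha ⟨n, by rw [← hn]; rfl⟩
    rw [h1, if_neg]
    · simp
    · rintro ⟨_, h2, h3⟩
      apply ha
      refine ⟨j.toNat, ?_⟩
      rw [h3]
      have : ((j.toNat : ℤ)) = j := Int.toNat_of_nonneg h2
      exact_mod_cast this.symm

theorem uu_mul_vv : uu K * vv K = 1 := by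
  classical
  apply cf_ext
  intro a i j
  unfold uu
  rw [add_mul, one_mul, cf_add, cf_tz_mul', cf_vv, cf_vv, cf_one]
  by_cases hi : i = 0
  · subst hi
    by_cases hj : 1 ≤ j
    · by_cases ha : a = j
      · rw [if_pos ⟨rfl, by omega, ha⟩, if_pos ⟨by omega, by omega, by rw [ha]; push_cast; ring⟩,
          if_neg (by rintro ⟨_, _, h⟩; omega)]
        have : j.toNat = (j - 1).toNat + 1 := by omega
        rw [this, pow_succ]; ring
      · rw [if_neg (by rintro ⟨_, _, h⟩; exact ha h), if_neg (by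
          rintro ⟨_, _, h⟩; apply ha; push_cast at h; linarith),
          if_neg (by rintro ⟨_, _, h⟩; omega), add_zero]
    · rw [if_neg (c := 0 - 0 = (0 : ℤ) ∧ 0 ≤ j - 1 ∧ a - 1 = ((j - 1 : ℤ) : ℝ))
        (by rintro ⟨_, h, _⟩; omega), add_zero]
      by_cases hj0 : j = 0
      · subst hj0
        simp
      · rw [if_neg (by rintro ⟨_, h, _⟩; omega), if_neg (by rintro ⟨_, _, h⟩; exact hj0 h)]
  · rw [if_neg (by rintro ⟨h, _⟩; exact hi h), if_neg (by rintro ⟨h, _⟩; omega),
      if_neg (by rintro ⟨_, h, _⟩; exact hi h), add_zero]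

/-- the unit `1 + t y` -/
noncomputable def uni (K : Type) [Field K] : (HR K)ˣ where
  val := uu K
  inv := vv K
  val_inv := uu_mul_vv
  inv_val := by rw [mul_comm]; exact uu_mul_vv

/-- series `1 + (positive order)` without `z` -/
def Gd (x : HR K) : Prop := XF x ∧ Low x 0 ∧ x.coeff 0 = 1

theorem Gd.mul {x y : HR K} (hx : Gd x) (hy : Gd y) : Gd (x * y) := by
  refine ⟨hx.1.mul hy.1, ?_, ?_⟩
  · have := hx.2.1.mul hy.2.1
    simpa using this
  · have := hx.2.1.coeff_mul hy.2.1
    rw [add_zero, hx.2.2, hy.2.2, one_mul] at this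
    exact this

theorem Gd.one : Gd (1 : HR K) := ⟨XF.one, low_one, by simp⟩

theorem Gd.pow {x : HR K} (hx : Gd x) (n : ℕ) : Gd (x ^ n) := by
  induction n with
  | zero => rw [pow_zero]; exact Gd.one
  | succ n ih => rw [pow_succ]; exact ih.mul hx

theorem Gd.uu : Gd (uu K) := by
  refine ⟨XF.one.add (XF.tz 1 1), ?_, ?_⟩
  · exact low_one.add ((low_tz 1 0 1).mono (by norm_num))
  · unfold CF.uu
    rw [HahnSeries.coeff_add, (low_tz 1 0 1) 0 (by norm_num), add_zero]
    simp

theorem Gd.vv : Gd (vv K) := by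
  classical
  refine ⟨?_, ?_, ?_⟩
  · intro a i j hi
    rw [cf_vv, if_neg]
    exact fun h => hi h.1
  · intro a ha
    ext ⟨i, j⟩
    have := cf_vv (K := K) a i j
    unfold cf at this
    rw [this, if_neg]
    · simp
    · rintro ⟨_, h1, h2⟩
      have : (0 : ℝ) ≤ j := by exact_mod_cast h1
      linarith
  · ext ⟨i, j⟩
    have := cf_vv (K := K) 0 i j
    unfold cf at this
    rw [this]
    have h1 := cf_one (K := K) 0 i j
    unfold cf at h1
    rw [HahnSeries.coeff_one, if_pos rfl] at h1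
    rw [h1]
    by_cases h : i = 0 ∧ j = 0
    · obtain ⟨rfl, rfl⟩ := h
      simp
    · rw [if_neg, if_neg]
      · rintro ⟨_, h2, h3⟩; exact h ⟨h2, h3⟩
      · rintro ⟨h2, _, h3⟩
        apply h
        refine ⟨h2, ?_⟩
        exact_mod_cast h3.symm

theorem Gd.zpow (n : ℤ) : Gd ((uni K ^ n : (HR K)ˣ) : HR K) := by
  obtain ⟨m, rfl | rfl⟩ := Int.eq_nat_or_neg n
  · rw [zpow_natCast, Units.val_pow_eq_pow_val]
    exact Gd.uu.pow m
  · rw [zpow_neg, zpow_natCast, ← inv_pow, Units.val_pow_eq_pow_val]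
    exact Gd.vv.pow m

/-- the characters `x ^ i (1 + t y) ^ j` -/
noncomputable def fchr (K : Type) [Field K] : Multiplicative (ℤ × ℤ) →* HR K where
  toFun m := tz K 0 m.toAdd.1 0 * ((uni K ^ m.toAdd.2 : (HR K)ˣ) : HR K)
  map_one' := by
    simp only [toAdd_one, Prod.fst_zero, Prod.snd_zero, zpow_zero, Units.val_one, mul_one]
    unfold tz
    rfl
  map_mul' m m' := by
    simp only [toAdd_mul, Prod.fst_add, Prod.snd_add]
    rw [zpow_add, Units.val_mul]
    have h : tz K 0 (m.toAdd.1 + m'.toAdd.1) 0 = tz K 0 m.toAdd.1 0 * tz K 0 m'.toAdd.1 0 := by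
      unfold tz
      rw [HahnSeries.single_mul_single, AddMonoidAlgebra.single_mul_single]
      simp
    rw [h]; ring

/-- the substitution `x ↦ x`, `y ↦ 1 + t y` -/
noncomputable def flatHom (K : Type) [Field K] : Lau (HK K) →+* HR K :=
  AddMonoidAlgebra.liftNCRingHom (incl : HK K →+* HR K) (fchr K) (fun _ _ => Commute.all _ _)

theorem flatHom_single (m : ℤ × ℤ) (c : HK K) :
    flatHom K (AddMonoidAlgebra.single m c) =
      incl c * (tz K 0 m.1 0 * ((uni K ^ m.2 : (HR K)ˣ) : HR K)) := by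
  unfold flatHom
  rw [AddMonoidAlgebra.liftNCRingHom_single]
  rfl

theorem flatHom_eq (f : Lau (HK K)) : flatHom K f =
    ∑ m ∈ f.coeff.support, tz K 0 m.1 0 *
      (incl (f.coeff m) * ((uni K ^ m.2 : (HR K)ˣ) : HR K)) := by
  have h : f = ∑ m ∈ f.coeff.support, AddMonoidAlgebra.single m (f.coeff m) := by
    apply AddMonoidAlgebra.coeff_injective
    rw [AddMonoidAlgebra.coeff_sum]
    conv_lhs => rw [← Finsupp.sum_single f.coeff]
    rfl
  conv_lhs => rw [h, map_sum]
  apply sum_congr rfl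
  intro m _
  rw [flatHom_single]; ring

/-- the column over `a` -/
noncomputable def colm (f : Lau (HK K)) (a : ℤ) : HR K :=
  ∑ m ∈ f.coeff.support with m.1 = a, incl (f.coeff m) * ((uni K ^ m.2 : (HR K)ˣ) : HR K)

theorem XF_colm (f : Lau (HK K)) (a : ℤ) : XF (colm f a) :=
  XF.sum _ _ fun m _ => (XF.incl _).mul (Gd.zpow m.2).1

theorem cf_flatHom (f : Lau (HK K)) (r : ℝ) (a l : ℤ) :
    cf (flatHom K f) r a l = cf (colm f a) r 0 l := by
  rw [flatHom_eq, cf_sum]
  unfold colm
  rw [cf_sum, sum_filter]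
  apply sum_congr rfl
  intro m _
  rw [cf_tz_mul', sub_zero, sub_zero]
  split_ifs with h
  · rw [h, sub_self]
  · exact ((XF.incl _).mul (Gd.zpow m.2).1) _ _ _ (by omega)

/-- the polynomial of the column -/
noncomputable def cpol (f : Lau (HK K)) (a b0 : ℤ) : Polynomial (HK K) :=
  ∑ m ∈ f.coeff.support with m.1 = a, Polynomial.monomial (m.2 - b0).toNat (f.coeff m)

theorem colm_eq (f : Lau (HK K)) (a b0 : ℤ) (hb : ∀ m ∈ f.coeff.support, m.1 = a → b0 ≤ m.2) :
    colm f a = ((uni K ^ b0 : (HR K)ˣ) : HR K) *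
      ((Polynomial.taylor 1 (cpol f a b0)).eval₂ incl (tz K 1 0 1)) := by
  have h1 : (Polynomial.taylor 1 (cpol f a b0)).eval₂ incl (tz K 1 0 1) =
      (cpol f a b0).eval₂ incl (uu K) := by
    rw [Polynomial.taylor_apply, Polynomial.eval₂_comp]
    congr 1
    simp [uu, add_comm]
  rw [h1]
  unfold colm cpol
  rw [Polynomial.eval₂_finsetSum, mul_sum]
  apply sum_congr rfl
  intro m hm
  rw [mem_filter] at hm
  have h2 := hb m hm.1 hm.2
  rw [Polynomial.eval₂_monomial]
  have h3 : (uni K ^ m.2 : (HR K)ˣ) = uni K ^ b0 * uni K ^ (m.2 - b0).toNat := by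
    rw [← zpow_natCast, ← zpow_add]
    congr 1
    omega
  rw [h3, Units.val_mul, Units.val_pow_eq_pow_val]
  have h4 : ((uni K : (HR K)ˣ) : HR K) = uu K := rfl
  rw [h4]; ring

theorem tz_pow (n : ℕ) : (tz K 1 0 1) ^ n = tz K n 0 n := by
  unfold tz
  rw [HahnSeries.single_pow, AddMonoidAlgebra.single_pow]
  simp

theorem cf_eval (q : Polynomial (HK K)) (r : ℝ) (i l : ℤ) :
    cf (q.eval₂ incl (tz K 1 0 1)) r i l =
      if i = 0 ∧ 0 ≤ l then (q.coeff l.toNat).coeff (r - l) else 0 := by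
  classical
  rw [Polynomial.eval₂_eq_sum_range, cf_sum]
  have h : ∀ n : ℕ, cf (incl (q.coeff n) * (tz K 1 0 1) ^ n) r i l =
      if i = 0 ∧ l = n then (q.coeff n).coeff (r - l) else 0 := by
    intro n
    rw [tz_pow, mul_comm, cf_tz_mul', cf_incl, sub_zero]
    by_cases h1 : i = 0 ∧ l = n
    · rw [if_pos h1, if_pos ⟨h1.1, by omega⟩]
      congr 1
      rw [h1.2]; simp
    · rw [if_neg h1, if_neg]
      rintro ⟨h2, h3⟩
      exact h1 ⟨h2, by omega⟩
  simp_rw [h]
  by_cases h1 : i = 0 ∧ 0 ≤ l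
  · rw [if_pos h1]
    by_cases h2 : l.toNat ∈ range (q.natDegree + 1)
    · rw [sum_eq_single l.toNat]
      · rw [if_pos ⟨h1.1, by omega⟩]
      · intro n _ hn
        rw [if_neg]
        rintro ⟨_, h3⟩
        apply hn; omega
      · intro h3; exact absurd h2 h3
    · rw [Polynomial.coeff_eq_zero_of_natDegree_lt (by
        rw [mem_range] at h2; omega), HahnSeries.coeff_zero]
      apply sum_eq_zero
      intro n hn
      rw [if_neg]
      rintro ⟨_, h3⟩
      apply h2
      have : l.toNat = n := by omega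
      rw [this]; exact hn
  · rw [if_neg h1]
    apply sum_eq_zero
    intro n _
    rw [if_neg]
    rintro ⟨h2, h3⟩
    exact h1 ⟨h2, by omega⟩

theorem cpol_coeff {f : Lau (HK K)} {a b0 : ℤ} (hb : ∀ m ∈ f.coeff.support, m.1 = a → b0 ≤ m.2)
    {b : ℤ} (hbb : b0 ≤ b) : (cpol f a b0).coeff (b - b0).toNat = f.coeff (a, b) := by
  classical
  unfold cpol
  rw [Polynomial.finsetSum_coeff]
  by_cases h : (a, b) ∈ f.coeff.support
  · rw [sum_eq_single (a, b)]
    · simp
    · intro m hm hne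
      rw [mem_filter] at hm
      rw [Polynomial.coeff_monomial, if_neg]
      intro h1
      apply hne
      have := hb m hm.1 hm.2
      ext
      · exact hm.2
      · simp only; omega
    · intro h1
      exact absurd (mem_filter.2 ⟨h, rfl⟩ : (a, b) ∈ f.coeff.support.filter fun m => m.1 = a) h1
  · rw [Finsupp.notMem_support_iff.1 h]
    apply sum_eq_zero
    intro m hm
    rw [mem_filter] at hm
    rw [Polynomial.coeff_monomial, if_neg]
    intro h1
    apply h
    have := hb m hm.1 hm.2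
    have h2 : m = (a, b) := by
      ext
      · exact hm.2
      · simp only; omega
    rw [← h2]; exact hm.1

end aux

/-- the flattening: the leading coefficient of the image is nonzero, with exponents in `S'` -/
theorem flat_lead {K : Type} [Field K] {S S' : Set (ℤ × ℤ)}
    (hS : ∀ a b b' : ℤ, (a, b) ∈ S → (a, b') ∈ S → ∀ k : ℕ, (k : ℤ) ≤ b' - b →
      ((a, (k : ℤ)) : ℤ × ℤ) ∈ S')
    {f : Lau (HK K)} (hne : f ≠ 0) (hf : (↑f.coeff.support : Set (ℤ × ℤ)) ⊆ S) :
    ∃ r : ℝ, (flatHom K f).coeff r ≠ 0 ∧ (∀ s < r, (flatHom K f).coeff s = 0) ∧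
      ∀ m, ((flatHom K f).coeff r).coeff m ≠ 0 → m ∈ S' := by
  classical
  -- the lower end of a column
  have hlow : ∀ a : ℤ, (∃ m ∈ f.coeff.support, m.1 = a) → ∃ b0 : ℤ, (a, b0) ∈ f.coeff.support ∧
      ∀ m ∈ f.coeff.support, m.1 = a → b0 ≤ m.2 := by
    rintro a ⟨m, hm, hma⟩
    obtain ⟨m0, hm0, hmin⟩ := Finset.exists_min_image (f.coeff.support.filter (fun m => m.1 = a))
      (fun m => m.2) ⟨m, mem_filter.2 ⟨hm, hma⟩⟩
    rw [mem_filter] at hm0
    refine ⟨m0.2, ?_, fun m' h1 h2 => hmin m' (mem_filter.2 ⟨h1, h2⟩)⟩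
    rw [← hm0.2]; exact hm0.1
  have hΦ : flatHom K f ≠ 0 := by
    intro h0
    have hfne : f.coeff ≠ 0 := fun h => hne (AddMonoidAlgebra.coeff_injective (by simpa using h))
    obtain ⟨m0, hm0⟩ := Finsupp.support_nonempty_iff.2 hfne
    obtain ⟨b0, hb0, hb⟩ := hlow m0.1 ⟨m0, hm0, rfl⟩
    have h1 : colm f m0.1 = 0 := by
      apply cf_ext
      intro a i j
      by_cases hi : i = 0
      · subst hi
        rw [← cf_flatHom, h0]
        simp [cf]
      · rw [XF_colm f m0.1 a i j hi]
        simp [cf]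
    rw [colm_eq f m0.1 b0 hb] at h1
    have h2 : (Polynomial.taylor 1 (cpol f m0.1 b0)).eval₂ incl (tz K 1 0 1) = 0 := by
      have h3 := congrArg (fun x => (((uni K ^ b0)⁻¹ : (HR K)ˣ) : HR K) * x) h1
      simp only [mul_zero] at h3
      rwa [← mul_assoc, ← Units.val_mul, inv_mul_cancel, Units.val_one, one_mul] at h3
    have h3 : Polynomial.taylor 1 (cpol f m0.1 b0) = 0 := by
      ext n
      have h4 : ∀ s : ℝ, ((Polynomial.taylor 1 (cpol f m0.1 b0)).coeff n).coeff s = 0 := by
        intro s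
        have h5 := cf_eval (K := K) (Polynomial.taylor 1 (cpol f m0.1 b0)) (s + n) 0 n
        rw [h2, if_pos ⟨rfl, by omega⟩] at h5
        simpa [cf] using h5.symm
      rw [Polynomial.coeff_zero, HahnSeries.coeff_zero]
      exact h4 _
    have h4 : cpol f m0.1 b0 = 0 := by
      apply Polynomial.taylor_injective (R := HK K) 1
      rw [h3, map_zero]
    have h5 := cpol_coeff hb (hb m0 hm0 rfl)
    rw [h4, Polynomial.coeff_zero] at h5
    exact (Finsupp.mem_support_iff.1 hm0) h5.symm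
  refine ⟨(flatHom K f).order, ?_, fun s hs => HahnSeries.coeff_eq_zero_of_lt_order hs, ?_⟩
  · intro h
    exact hΦ (HahnSeries.coeff_order_eq_zero.1 h)
  · rintro ⟨a, l⟩ hm
    set r := (flatHom K f).order with hr
    have hcf : cf (flatHom K f) r a l ≠ 0 := hm
    have hcolm : cf (colm f a) r 0 l ≠ 0 := by rwa [← cf_flatHom]
    have hex : ∃ m ∈ f.coeff.support, m.1 = a := by
      by_contra hno
      push Not at hno
      apply hcolm
      unfold colm
      rw [filter_false_of_mem hno]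
      simp [cf]
    obtain ⟨b0, hb0, hb⟩ := hlow a hex
    have hlowc : Low (colm f a) r := by
      intro s hs
      ext ⟨i, j⟩
      have : cf (colm f a) s i j = 0 := by
        by_cases hi : i = 0
        · subst hi
          rw [← cf_flatHom]
          unfold cf
          rw [HahnSeries.coeff_eq_zero_of_lt_order hs]
          simp
        · exact XF_colm f a s i j hi
      unfold cf at this
      rw [this]; simp
    set Q := (Polynomial.taylor 1 (cpol f a b0)).eval₂ incl (tz K 1 0 1) with hQ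
    have hc : colm f a = ((uni K ^ b0 : (HR K)ˣ) : HR K) * Q := colm_eq f a b0 hb
    have hc' : Q = ((uni K ^ (-b0) : (HR K)ˣ) : HR K) * colm f a := by
      rw [hc, ← mul_assoc, ← Units.val_mul, ← zpow_add]
      simp
    have hlowQ : Low Q r := by
      have := (Gd.zpow (K := K) (-b0)).2.1.mul hlowc
      rw [zero_add] at this
      rw [hc']; exact this
    have heq : (colm f a).coeff r = Q.coeff r := by
      have := (Gd.zpow (K := K) b0).2.1.coeff_mul hlowQ
      rw [zero_add, (Gd.zpow b0).2.2, one_mul, ← hc] at this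
      exact this
    have hQl : cf Q r 0 l ≠ 0 := by
      unfold cf at hcolm ⊢
      rw [← heq]; exact hcolm
    rw [hQ, cf_eval] at hQl
    have hl : 0 ≤ l := by
      by_contra h
      rw [if_neg (fun h' => h h'.2)] at hQl
      exact hQl rfl
    rw [if_pos ⟨rfl, hl⟩] at hQl
    have hdeg : l.toNat ≤ (cpol f a b0).natDegree := by
      rw [← Polynomial.natDegree_taylor (cpol f a b0) 1]
      apply Polynomial.le_natDegree_of_ne_zero
      intro h
      rw [h] at hQl
      simp at hQl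
    have hp0 : cpol f a b0 ≠ 0 := by
      intro h
      rw [h, map_zero] at hQl
      simp at hQl
    have hlc : (cpol f a b0).coeff (cpol f a b0).natDegree ≠ 0 := by
      rw [Polynomial.coeff_natDegree]
      exact Polynomial.leadingCoeff_ne_zero.2 hp0
    have h6 := cpol_coeff hb (b := b0 + (cpol f a b0).natDegree) (by omega)
    have h7 : (b0 + ((cpol f a b0).natDegree : ℤ) - b0).toNat = (cpol f a b0).natDegree := by omega
    rw [h7] at h6
    rw [h6] at hlc
    have h8 := hS a b0 (b0 + (cpol f a b0).natDegree) (hf hb0)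
      (hf (Finsupp.mem_support_iff.2 hlc)) l.toNat (by omega)
    rw [Int.toNat_of_nonneg hl] at h8
    exact h8

end Pool.Agent.TH98.CF
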