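import Mathlib

/-! Laurent polynomials with multiplicities at torus points in arbitrary characteristic.
`IsPD w P` : all `w`-fold differences of the function `P` on `ℤ × ℤ` vanish.
`LM1 f x y w` : the Laurent polynomial with coefficients `f` has multiplicity at least `w` at the
point `(x, y)` of the torus. `Emp1 p w S` : for some points over some field of characteristic `p`
no nonzero Laurent polynomial with exponents in `S` has multiplicity at least `w i` at the
`i`-th point for all `i`. -/

namespace Pool.Agent.TH98.CF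

open Finset

section PD
variable {K : Type*} [CommRing K]

/-- the difference of a function -/
def dl (v : ℤ × ℤ) (P : ℤ × ℤ → K) : ℤ × ℤ → K := fun u => P (u + v) - P u

/-- all `w`-fold differences vanish -/
def IsPD : ℕ → (ℤ × ℤ → K) → Prop
  | 0, P => P = 0
  | (w + 1), P => ∀ v, IsPD w (dl v P)

theorem dl_zero (v : ℤ × ℤ) : dl v (0 : ℤ × ℤ → K) = 0 := by
  funext u; simp [dl]

theorem dl_add (v : ℤ × ℤ) (P Q : ℤ × ℤ → K) : dl v (P + Q) = dl v P + dl v Q := by
  funext u; simp only [dl, Pi.add_apply]; ring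

theorem dl_smul (v : ℤ × ℤ) (c : K) (P : ℤ × ℤ → K) : dl v (c • P) = c • dl v P := by
  funext u; simp only [dl, Pi.smul_apply, smul_eq_mul]; ring

theorem IsPD.zero (w : ℕ) : IsPD w (0 : ℤ × ℤ → K) := by
  induction w with
  | zero => rfl
  | succ w ih => intro v; rw [dl_zero]; exact ih

theorem IsPD.add {w : ℕ} {P Q : ℤ × ℤ → K} (hP : IsPD w P) (hQ : IsPD w Q) : IsPD w (P + Q) := by
  induction w generalizing P Q with
  | zero =>
    have h1 : P = 0 := hP
    have h2 : Q = 0 := hQ
    show P + Q = 0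
    rw [h1, h2, add_zero]
  | succ w ih => intro v; rw [dl_add]; exact ih (hP v) (hQ v)

theorem IsPD.smul {w : ℕ} {P : ℤ × ℤ → K} (hP : IsPD w P) (c : K) : IsPD w (c • P) := by
  induction w generalizing P with
  | zero =>
    have h1 : P = 0 := hP
    show c • P = 0
    rw [h1, smul_zero]
  | succ w ih => intro v; rw [dl_smul]; exact ih (hP v)

theorem IsPD.neg {w : ℕ} {P : ℤ × ℤ → K} (hP : IsPD w P) : IsPD w (-P) := by
  have := hP.smul (-1)
  simpa using this

theorem IsPD.sub {w : ℕ} {P Q : ℤ × ℤ → K} (hP : IsPD w P) (hQ : IsPD w Q) : IsPD w (P - Q) := by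
  rw [sub_eq_add_neg]; exact hP.add hQ.neg

theorem IsPD.sum {w : ℕ} {κ : Type*} (s : Finset κ) (P : κ → ℤ × ℤ → K)
    (h : ∀ k ∈ s, IsPD w (P k)) : IsPD w (∑ k ∈ s, P k) := by
  classical
  induction s using Finset.induction_on with
  | empty => simpa using IsPD.zero w
  | insert a s ha ih =>
    rw [sum_insert ha]
    exact (h a (mem_insert_self _ _)).add (ih fun k hk => h k (mem_insert_of_mem hk))

theorem IsPD.succ {w : ℕ} {P : ℤ × ℤ → K} (hP : IsPD w P) : IsPD (w + 1) P := by
  induction w generalizing P with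
  | zero =>
    have h1 : P = 0 := hP
    intro v
    rw [h1]
    exact dl_zero v
  | succ w ih => intro v; exact ih (hP v)

theorem IsPD.mono {w w' : ℕ} (h : w ≤ w') {P : ℤ × ℤ → K} (hP : IsPD w P) : IsPD w' P := by
  induction h with
  | refl => exact hP
  | step _ ih => exact ih.succ

/-- integral affine substitutions -/
theorem IsPD.comp {w : ℕ} {P : ℤ × ℤ → K} (hP : IsPD w P) (a b c d e f : ℤ) :
    IsPD w (fun u => P (a * u.1 + b * u.2 + e, c * u.1 + d * u.2 + f)) := by
  induction w generalizing P with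
  | zero =>
    have h1 : P = 0 := hP
    subst h1
    rfl
  | succ w ih =>
    intro v
    have := ih (hP (a * v.1 + b * v.2, c * v.1 + d * v.2))
    convert this using 1
    funext u
    simp only [dl, Prod.fst_add, Prod.snd_add, Prod.mk_add_mk]
    congr 3
    · ring
    · ring

theorem IsPD.translate {w : ℕ} {P : ℤ × ℤ → K} (hP : IsPD w P) (v : ℤ × ℤ) :
    IsPD w (fun u => P (u + v)) := by
  have := hP.comp 1 0 0 1 v.1 v.2
  convert this using 1
  funext u
  congr 1
  ext <;> simp

/-- products -/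
theorem IsPD.mul' : ∀ (n w w' : ℕ), w + w' = n → ∀ {P Q : ℤ × ℤ → K}, IsPD (w + 1) P →
    IsPD (w' + 1) Q → IsPD (w + w' + 1) (P * Q) := by
  intro n
  induction n with
  | zero =>
    intro w w' h P Q hP hQ
    have hw : w = 0 := by omega
    have hw' : w' = 0 := by omega
    subst hw hw'
    intro v
    have h1 : dl v P = 0 := hP v
    have h2 : dl v Q = 0 := hQ v
    show dl v (P * Q) = 0
    funext u
    have h3 := congrFun h1 u
    have h4 := congrFun h2 u
    simp only [dl, Pi.zero_apply, Pi.mul_apply] at h3 h4 ⊢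
    rw [sub_eq_zero.1 h3, sub_eq_zero.1 h4, sub_self]
  | succ n ih =>
    intro w w' h P Q hP hQ v
    have e : dl v (P * Q) = (fun u => P (u + v)) * dl v Q + dl v P * Q := by
      funext u
      simp only [dl, Pi.mul_apply, Pi.add_apply]; ring
    rw [e]
    have hPv := hP.translate v
    apply IsPD.add
    · rcases w' with _ | w'
      · have h2 : dl v Q = 0 := hQ v
        rw [h2, mul_zero]
        exact IsPD.zero _
      · have := ih w w' (by omega) hPv (hQ v)
        exact this
    · rcases w with _ | w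
      · have h2 : dl v P = 0 := hP v
        rw [h2, zero_mul]
        exact IsPD.zero _
      · have := ih w w' (by omega) (hP v) hQ
        have e2 : w + 1 + w' = w + w' + 1 := by ring
        rw [e2]
        exact this

theorem IsPD.mul {w w' : ℕ} {P Q : ℤ × ℤ → K} (hP : IsPD (w + 1) P) (hQ : IsPD (w' + 1) Q) :
    IsPD (w + w' + 1) (P * Q) := IsPD.mul' (w + w') w w' rfl hP hQ

theorem IsPD.const (c : K) : IsPD 1 (fun _ : ℤ × ℤ => c) := by
  intro v
  show dl v _ = 0
  funext u
  simp [dl]

/-- it is enough to look at the differences in the two directions -/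
theorem IsPD.of_two {w : ℕ} {P : ℤ × ℤ → K} (h1 : IsPD w (dl (1, 0) P)) (h2 : IsPD w (dl (0, 1) P)) :
    IsPD (w + 1) P := by
  have hadd : ∀ v v' : ℤ × ℤ, IsPD w (dl v P) → IsPD w (dl v' P) → IsPD w (dl (v + v') P) := by
    intro v v' hv hv'
    have e : dl (v + v') P = (fun u => dl v P (u + v')) + dl v' P := by
      funext u
      simp only [dl, Pi.add_apply]
      have : u + v' + v = u + (v + v') := by abel
      rw [this]; ring
    rw [e]
    exact (hv.translate v').add hv'
  have hneg : ∀ v : ℤ × ℤ, IsPD w (dl v P) → IsPD w (dl (-v) P) := by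
    intro v hv
    have e : dl (-v) P = -(fun u => dl v P (u + -v)) := by
      funext u
      simp only [dl, Pi.neg_apply]
      have : u + -v + v = u := by abel
      rw [this]; ring
    rw [e]
    exact (hv.translate (-v)).neg
  have h0 : IsPD w (dl (0 : ℤ × ℤ) P) := by
    have : dl (0 : ℤ × ℤ) P = 0 := by funext u; simp [dl]
    rw [this]; exact IsPD.zero w
  have hz : ∀ v : ℤ × ℤ, IsPD w (dl v P) → ∀ n : ℤ, IsPD w (dl (n • v) P) := by
    intro v hv n
    induction n using Int.induction_on with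
    | zero => simpa using h0
    | succ n ih => rw [add_smul, one_smul]; exact hadd _ _ ih hv
    | pred n ih => rw [sub_smul, one_smul, sub_eq_add_neg]; exact hadd _ _ ih (hneg _ hv)
  intro v
  have e : v = v.1 • ((1 : ℤ), (0 : ℤ)) + v.2 • ((0 : ℤ), (1 : ℤ)) := by ext <;> simp
  rw [e]
  exact hadd _ _ (hz _ h1 _) (hz _ h2 _)

/-- binomial coefficients of integers in `K` -/
def bin (K : Type*) [CommRing K] (n : ℤ) (k : ℕ) : K := ((Ring.choose n k : ℤ) : K)

theorem bin_zero (n : ℤ) : bin K n 0 = 1 := by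
  unfold bin; rw [Ring.choose_zero_right]; simp

theorem bin_succ (n : ℤ) (k : ℕ) : bin K (n + 1) (k + 1) = bin K n k + bin K n (k + 1) := by
  unfold bin; rw [Ring.choose_succ_succ]; push_cast; ring

theorem bin_nat (n k : ℕ) : bin K (n : ℤ) k = ((n.choose k : ℕ) : K) := by
  unfold bin
  rw [Ring.choose_natCast]
  simp

theorem isPD_bin_fst (a : ℕ) : IsPD (a + 1) (fun u : ℤ × ℤ => bin K u.1 a) := by
  induction a with
  | zero =>
    have : (fun u : ℤ × ℤ => bin K u.1 0) = fun _ => 1 := by funext u; exact bin_zero _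
    rw [this]; exact IsPD.const 1
  | succ a ih =>
    apply IsPD.of_two
    · have : dl (1, 0) (fun u : ℤ × ℤ => bin K u.1 (a + 1)) = fun u : ℤ × ℤ => bin K u.1 a := by
        funext u
        simp only [dl, Prod.fst_add]
        rw [bin_succ]; ring
      rw [this]; exact ih
    · have : dl (0, 1) (fun u : ℤ × ℤ => bin K u.1 (a + 1)) = 0 := by
        funext u
        simp [dl]
      rw [this]; exact IsPD.zero _

theorem isPD_bin_snd (a : ℕ) : IsPD (a + 1) (fun u : ℤ × ℤ => bin K u.2 a) := by
  have := (isPD_bin_fst (K := K) a).comp 0 1 1 0 0 0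
  convert this using 1
  funext u
  simp

theorem isPD_bin {a b w : ℕ} (h : a + b < w) :
    IsPD w (fun u : ℤ × ℤ => bin K u.1 a * bin K u.2 b) :=
  IsPD.mono (show a + b + 1 ≤ w by omega) ((isPD_bin_fst a).mul (isPD_bin_snd b))

/-- Newton expansion: the functions are combinations of products of binomial coefficients -/
theorem IsPD.mem_span {w : ℕ} {P : ℤ × ℤ → K} (hP : IsPD w P) :
    P ∈ Submodule.span K {Q : ℤ × ℤ → K | ∃ a b : ℕ, a + b < w ∧
      Q = fun u => bin K u.1 a * bin K u.2 b} := by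
  induction w generalizing P with
  | zero =>
    have h1 : P = 0 := hP
    rw [h1]; exact Submodule.zero_mem _
  | succ w ih =>
    -- antidifference in the first direction
    have key1 : ∀ D ∈ Submodule.span K {Q : ℤ × ℤ → K | ∃ a b : ℕ, a + b < w ∧
        Q = fun u => bin K u.1 a * bin K u.2 b}, ∃ R ∈ Submodule.span K {Q : ℤ × ℤ → K | ∃ a b : ℕ,
        a + b < w + 1 ∧ Q = fun u => bin K u.1 a * bin K u.2 b}, dl (1, 0) R = D := by
      intro D hD
      induction hD using Submodule.span_induction with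
      | mem Q hQ =>
        obtain ⟨a, b, hab, rfl⟩ := hQ
        refine ⟨fun u => bin K u.1 (a + 1) * bin K u.2 b, Submodule.subset_span ⟨a + 1, b,
          by omega, rfl⟩, ?_⟩
        funext u
        simp only [dl, Prod.fst_add, Prod.snd_add, add_zero]
        rw [bin_succ]; ring
      | zero => exact ⟨0, Submodule.zero_mem _, dl_zero _⟩
      | add x y _ _ hx hy =>
        obtain ⟨R, hR, hR'⟩ := hx
        obtain ⟨S, hS, hS'⟩ := hy
        exact ⟨R + S, Submodule.add_mem _ hR hS, by rw [dl_add, hR', hS']⟩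
      | smul c x _ hx =>
        obtain ⟨R, hR, hR'⟩ := hx
        exact ⟨c • R, Submodule.smul_mem _ c hR, by rw [dl_smul, hR']⟩
    have hspan : ∀ {w : ℕ} {R : ℤ × ℤ → K}, R ∈ Submodule.span K {Q : ℤ × ℤ → K | ∃ a b : ℕ,
        a + b < w ∧ Q = fun u => bin K u.1 a * bin K u.2 b} → IsPD w R := by
      intro w R hR
      induction hR using Submodule.span_induction with
      | mem Q hQ =>
        obtain ⟨a, b, hab, rfl⟩ := hQ
        exact isPD_bin hab
      | zero => exact IsPD.zero _
      | add x y _ _ hx hy => exact hx.add hy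
      | smul c x _ hx => exact hx.smul c
    -- functions of the second variable
    have key2 : ∀ D ∈ Submodule.span K {Q : ℤ × ℤ → K | ∃ a b : ℕ, a + b < w ∧
        Q = fun u => bin K u.1 a * bin K u.2 b}, ∃ R ∈ Submodule.span K {Q : ℤ × ℤ → K | ∃ a b : ℕ,
        a + b < w + 1 ∧ Q = fun u => bin K u.1 a * bin K u.2 b},
        (∀ u, R u = R (0, u.2)) ∧ ∀ j : ℤ, R (0, j + 1) - R (0, j) = D (0, j) := by
      intro D hD
      induction hD using Submodule.span_induction with
      | mem Q hQ =>
        obtain ⟨a, b, hab, rfl⟩ := hQ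
        refine ⟨fun u => bin K 0 a * bin K u.2 (b + 1), ?_, fun u => rfl, ?_⟩
        · have : (fun u : ℤ × ℤ => bin K 0 a * bin K u.2 (b + 1)) =
              bin K 0 a • fun u : ℤ × ℤ => bin K u.1 0 * bin K u.2 (b + 1) := by
            funext u
            simp only [Pi.smul_apply, smul_eq_mul, bin_zero, one_mul]
          rw [this]
          exact Submodule.smul_mem _ _ (Submodule.subset_span ⟨0, b + 1, by omega, rfl⟩)
        · intro j
          simp only
          rw [bin_succ]; ring
      | zero => exact ⟨0, Submodule.zero_mem _, fun u => rfl, fun j => by simp⟩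
      | add x y _ _ hx hy =>
        obtain ⟨R, hR, hR1, hR2⟩ := hx
        obtain ⟨S, hS, hS1, hS2⟩ := hy
        refine ⟨R + S, Submodule.add_mem _ hR hS, fun u => ?_, fun j => ?_⟩
        · simp only [Pi.add_apply]; rw [hR1 u, hS1 u]
        · simp only [Pi.add_apply]; rw [← hR2 j, ← hS2 j]; ring
      | smul c x _ hx =>
        obtain ⟨R, hR, hR1, hR2⟩ := hx
        refine ⟨c • R, Submodule.smul_mem _ c hR, fun u => ?_, fun j => ?_⟩
        · simp only [Pi.smul_apply]; rw [hR1 u]
        · simp only [Pi.smul_apply, smul_eq_mul]; rw [← hR2 j]; ring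
    obtain ⟨R, hR, hR'⟩ := key1 _ (ih (hP (1, 0)))
    have hPR : IsPD (w + 1) (P - R) := hP.sub (hspan hR)
    have hP1 : ∀ u : ℤ × ℤ, (P - R) (u + (1, 0)) = (P - R) u := by
      intro u
      have h1 := congrFun hR' u
      simp only [dl] at h1
      simp only [Pi.sub_apply]
      linear_combination -h1
    have hP2 : ∀ (n : ℤ) (u : ℤ × ℤ), (P - R) (u + (n, 0)) = (P - R) u := by
      intro n
      induction n using Int.induction_on with
      | zero =>
        intro u
        have : u + ((0 : ℤ), (0 : ℤ)) = u := by ext <;> simp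
        rw [this]
      | succ n ih2 =>
        intro u
        have : u + ((n : ℤ) + 1, 0) = (u + ((n : ℤ), 0)) + (1, 0) := by
          ext <;> simp [add_assoc]
        rw [this, hP1, ih2]
      | pred n ih2 =>
        intro u
        rw [← ih2 u, ← hP1 (u + (-(n : ℤ) - 1, 0))]
        have : u + (-(n : ℤ) - 1, 0) + (1, 0) = u + (-(n : ℤ), 0) := by
          ext
          · simp only [Prod.fst_add]; ring
          · simp only [Prod.snd_add]; ring
        rw [this]
    have hP3 : ∀ u : ℤ × ℤ, (P - R) u = (P - R) (0, u.2) := by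
      intro u
      have := hP2 u.1 (0, u.2)
      rw [← this]
      have e : ((0 : ℤ), u.2) + (u.1, 0) = u := by ext <;> simp
      rw [e]
    obtain ⟨S, hS, hS1, hS2⟩ := key2 _ (ih (hPR (0, 1)))
    have hc1 : ∀ j : ℤ, (P - R - S) (0, j + 1) = (P - R - S) (0, j) := by
      intro j
      have h1 := hS2 j
      simp only [dl, Prod.mk_add_mk, add_zero] at h1
      simp only [Pi.sub_apply] at h1 ⊢
      linear_combination -h1
    have hc2 : ∀ j : ℤ, (P - R - S) (0, j) = (P - R - S) (0, 0) := by
      intro j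
      induction j using Int.induction_on with
      | zero => rfl
      | succ n ih2 => rw [hc1, ih2]
      | pred n ih2 =>
        rw [← ih2, ← hc1 (-(n : ℤ) - 1)]
        have e : -(n : ℤ) - 1 + 1 = -(n : ℤ) := by ring
        rw [e]
    have hc3 : P = R + S + (P - R - S) (0, 0) • fun u : ℤ × ℤ => bin K u.1 0 * bin K u.2 0 := by
      funext u
      have h1 := hP3 u
      have h2 := hS1 u
      have h3 := hc2 u.2
      simp only [Pi.sub_apply, Pi.add_apply, Pi.smul_apply, smul_eq_mul, bin_zero] at h1 h2 h3 ⊢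
      linear_combination h1 - h2 + h3
    rw [hc3]
    refine Submodule.add_mem _ (Submodule.add_mem _ hR hS) (Submodule.smul_mem _ _
      (Submodule.subset_span ⟨0, 0, by omega, rfl⟩))

end PD

section LM
variable {K : Type*} [Field K]

/-- the pairing of a Laurent polynomial with the functional attached to `(x, y)` and `P` -/
noncomputable def prz (f : (ℤ × ℤ) →₀ K) (x y : K) (P : ℤ × ℤ → K) : K :=
  f.sum fun m c => c * P m * (x ^ m.1 * y ^ m.2)

/-- multiplicity at least `w` at the torus point `(x, y)` -/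
def LM1 (f : (ℤ × ℤ) →₀ K) (x y : K) (w : ℕ) : Prop := ∀ P, IsPD w P → prz f x y P = 0

theorem prz_add_right (f : (ℤ × ℤ) →₀ K) (x y : K) (P Q : ℤ × ℤ → K) :
    prz f x y (P + Q) = prz f x y P + prz f x y Q := by
  unfold prz Finsupp.sum
  rw [← sum_add_distrib]
  apply sum_congr rfl
  intro m _
  simp only [Pi.add_apply]; ring

theorem prz_smul_right (f : (ℤ × ℤ) →₀ K) (x y : K) (c : K) (P : ℤ × ℤ → K) :
    prz f x y (c • P) = c * prz f x y P := by
  unfold prz Finsupp.sum
  rw [mul_sum]
  apply sum_congr rfl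
  intro m _
  simp only [Pi.smul_apply, smul_eq_mul]; ring

theorem prz_zero_right (f : (ℤ × ℤ) →₀ K) (x y : K) : prz f x y 0 = 0 := by
  unfold prz Finsupp.sum
  simp

theorem LM1_of_bin {f : (ℤ × ℤ) →₀ K} {x y : K} {w : ℕ}
    (h : ∀ a b : ℕ, a + b < w → prz f x y (fun u => bin K u.1 a * bin K u.2 b) = 0) :
    LM1 f x y w := by
  intro P hP0
  have h0 := hP0.mem_span
  clear hP0
  induction h0 using Submodule.span_induction with
  | mem Q hQ =>
    obtain ⟨a, b, hab, rfl⟩ := hQ
    exact h a b hab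
  | zero => exact prz_zero_right f x y
  | add P Q _ _ hP hQ => rw [prz_add_right, hP, hQ, add_zero]
  | smul c P _ hP => rw [prz_smul_right, hP, mul_zero]

theorem LM1.bin {f : (ℤ × ℤ) →₀ K} {x y : K} {w : ℕ} (h : LM1 f x y w) {a b : ℕ}
    (hab : a + b < w) : prz f x y (fun u => bin K u.1 a * bin K u.2 b) = 0 := h _ (isPD_bin hab)

theorem LM1.mono {f : (ℤ × ℤ) →₀ K} {x y : K} {w w' : ℕ} (h : LM1 f x y w) (hw : w' ≤ w) :
    LM1 f x y w' := fun P hP => h P (hP.mono hw)

/-- integral affine change of exponents -/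
theorem LM1.relabel {f g : (ℤ × ℤ) →₀ K} {x y X Y : K} {w : ℕ} (h : LM1 f x y w)
    (a b c d u v : ℤ)
    (hg : g = f.mapDomain fun m : ℤ × ℤ => (a * m.1 + b * m.2 + u, c * m.1 + d * m.2 + v)) (k : K)
    (hchar : ∀ m ∈ f.support, X ^ (a * m.1 + b * m.2 + u) * Y ^ (c * m.1 + d * m.2 + v) =
      k * (x ^ m.1 * y ^ m.2)) : LM1 g X Y w := by
  intro P hP
  have h3 := h _ (hP.comp a b c d u v)
  unfold prz at h3 ⊢
  subst hg
  rw [Finsupp.sum_mapDomain_index (by simp) (by intro m a b; ring)]
  unfold Finsupp.sum at h3 ⊢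
  have : ∑ m ∈ f.support, f m * P (a * m.1 + b * m.2 + u, c * m.1 + d * m.2 + v) *
      (X ^ (a * m.1 + b * m.2 + u) * Y ^ (c * m.1 + d * m.2 + v))
      = k * ∑ m ∈ f.support, f m * P (a * m.1 + b * m.2 + u, c * m.1 + d * m.2 + v) *
        (x ^ m.1 * y ^ m.2) := by
    rw [mul_sum]
    apply sum_congr rfl
    intro m hm
    rw [hchar m hm]; ring
  rw [this, h3, mul_zero]

end LM

section Emp
variable {ι : Type}

/-- for some points over some field of characteristic `p` there is no nonzero Laurent polynomial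
with exponents in `S` and multiplicity at least `w i` at the `i`-th point -/
def Emp1 (p : ℕ) (w : ι → ℕ) (S : Set (ℤ × ℤ)) : Prop :=
  ∃ (K : Type) (_ : Field K) (_ : CharP K p) (x y : ι → K), (∀ i, x i ≠ 0) ∧ (∀ i, y i ≠ 0) ∧
    ∀ f : (ℤ × ℤ) →₀ K, (↑f.support : Set (ℤ × ℤ)) ⊆ S → (∀ i, LM1 f (x i) (y i) (w i)) → f = 0

variable {p : ℕ}

theorem Emp1.mono {w : ι → ℕ} {S S' : Set (ℤ × ℤ)} (h : Emp1 p w S') (hS : S ⊆ S') :
    Emp1 p w S := by
  obtain ⟨K, _, _, x, y, hx, hy, hf⟩ := h
  exact ⟨K, _, inferInstance, x, y, hx, hy, fun f h1 h2 => hf f (h1.trans hS) h2⟩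

/-- integral affine changes of exponents with determinant different from zero -/
theorem Emp1.comap {w : ι → ℕ} {S S' : Set (ℤ × ℤ)} (h : Emp1 p w S')
    (a b c d u v : ℤ) (hdet : a * d - b * c ≠ 0)
    (hS : ∀ m ∈ S, (a * m.1 + b * m.2 + u, c * m.1 + d * m.2 + v) ∈ S') : Emp1 p w S := by
  obtain ⟨K, _, _, X, Y, hX, hY, hf⟩ := h
  let φ : ℤ × ℤ → ℤ × ℤ := fun m => (a * m.1 + b * m.2 + u, c * m.1 + d * m.2 + v)
  have hφ : Function.Injective φ := by
    rintro ⟨p, q⟩ ⟨p', q'⟩ h
    simp only [φ, Prod.mk.injEq] at h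
    obtain ⟨h1, h2⟩ := h
    have e1 : (a * d - b * c) * (p - p') = 0 := by linear_combination d * h1 - b * h2
    have e2 : (a * d - b * c) * (q - q') = 0 := by linear_combination a * h2 - c * h1
    have e3 := (mul_eq_zero.1 e1).resolve_left hdet
    have e4 := (mul_eq_zero.1 e2).resolve_left hdet
    ext <;> simp <;> omega
  refine ⟨K, _, inferInstance, fun i => X i ^ a * Y i ^ c, fun i => X i ^ b * Y i ^ d,
    fun i => mul_ne_zero (zpow_ne_zero _ (hX i)) (zpow_ne_zero _ (hY i)),
    fun i => mul_ne_zero (zpow_ne_zero _ (hX i)) (zpow_ne_zero _ (hY i)), ?_⟩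
  intro f hfS hfL
  have h1 : f.mapDomain φ = 0 := by
    apply hf
    · intro m hm
      have := Finsupp.mapDomain_support hm
      simp only [Finset.mem_image] at this
      obtain ⟨m', hm', rfl⟩ := this
      exact hS m' (hfS hm')
    · intro i
      refine (hfL i).relabel a b c d u v rfl (X i ^ u * Y i ^ v) ?_
      intro m _
      rw [mul_zpow, mul_zpow, ← zpow_mul, ← zpow_mul, ← zpow_mul, ← zpow_mul,
        zpow_add₀ (hX i), zpow_add₀ (hX i), zpow_add₀ (hY i), zpow_add₀ (hY i)]
      ring
  exact (Finsupp.mapDomain_injective hφ) (by rw [h1, Finsupp.mapDomain_zero])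

end Emp

end Pool.Agent.TH98.CF
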