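import Pool.Agent.TH603.EL.Defs

set_option autoImplicit false

/-! The final step over an arbitrary field: all germs pass through the curve `y = 1`. -/

namespace Pool.Agent.TH98.CF

open Finset Pool.Agent.TH603.EL

section fil
variable {A : Type*} [CommRing A]

/-- the filtration: the coefficient of `X ^ k` is divisible by `v ^ (r (w - k))` -/
def FI (v : A) (r w : ℕ) : Ideal (PowerSeries A) where
  carrier := {P | ∀ k, v ^ (r * (w - k)) ∣ PowerSeries.coeff k P}
  add_mem' := by
    intro P Q hP hQ k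
    rw [map_add]
    exact dvd_add (hP k) (hQ k)
  zero_mem' := by
    intro k
    rw [map_zero]
    exact dvd_zero _
  smul_mem' := by
    intro c P hP k
    rw [smul_eq_mul, PowerSeries.coeff_mul]
    apply Finset.dvd_sum
    rintro ⟨i, j⟩ hij
    rw [Finset.HasAntidiagonal.mem_antidiagonal] at hij
    simp only at hij ⊢
    apply Dvd.dvd.mul_left
    refine dvd_trans (pow_dvd_pow v ?_) (hP j)
    exact Nat.mul_le_mul_left r (by omega)

theorem mem_FI {v : A} {r w : ℕ} {P : PowerSeries A} :
    P ∈ FI v r w ↔ ∀ k, v ^ (r * (w - k)) ∣ PowerSeries.coeff k P := Iff.rfl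

theorem FI_mul (v : A) (r w w' : ℕ) : FI v r w * FI v r w' ≤ FI v r (w + w') := by
  rw [Ideal.mul_le]
  intro P hP Q hQ
  rw [mem_FI] at *
  intro k
  rw [PowerSeries.coeff_mul]
  apply Finset.dvd_sum
  rintro ⟨i, j⟩ hij
  rw [Finset.HasAntidiagonal.mem_antidiagonal] at hij
  simp only at hij ⊢
  refine dvd_trans (pow_dvd_pow v ?_) ((pow_add v _ _).symm ▸ mul_dvd_mul (hP i) (hQ j) :
    v ^ (r * (w - i) + r * (w' - j)) ∣ _)
  rw [← Nat.mul_add]
  exact Nat.mul_le_mul_left r (by omega)

theorem FI_pow (v : A) (r w : ℕ) : FI v r 1 ^ w ≤ FI v r w := by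
  induction w with
  | zero =>
    intro P _
    rw [mem_FI]
    intro k
    simp
  | succ w ih =>
    rw [pow_succ]
    exact (Ideal.mul_mono_left ih).trans (FI_mul v r w 1)

end fil

section germ
variable {K : Type} [Field K]

/-- ring homomorphisms from the Laurent polynomials are determined by the values at the constants
and at the two variables -/
theorem ringHom_ext2 {R : Type*} [CommRing R] {f g : Lau K →+* R}
    (h0 : ∀ c, f (AddMonoidAlgebra.single 0 c) = g (AddMonoidAlgebra.single 0 c))
    (h1 : f (AddMonoidAlgebra.single (1, 0) 1) = g (AddMonoidAlgebra.single (1, 0) 1))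
    (h2 : f (AddMonoidAlgebra.single (0, 1) 1) = g (AddMonoidAlgebra.single (0, 1) 1)) : f = g := by
  have hm : ∀ (φ : Lau K →+* R) (i j : ℤ) (k l : ℕ),
      φ (AddMonoidAlgebra.single (i, j) 1) * (φ (AddMonoidAlgebra.single (1, 0) 1) ^ k *
        φ (AddMonoidAlgebra.single (0, 1) 1) ^ l) =
      φ (AddMonoidAlgebra.single (i + k, j + l) 1) := by
    intro φ i j k l
    rw [← map_pow, ← map_pow, ← map_mul, ← map_mul, AddMonoidAlgebra.single_pow,
      AddMonoidAlgebra.single_pow, AddMonoidAlgebra.single_mul_single,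
      AddMonoidAlgebra.single_mul_single]
    congr 2
    · ext <;> simp
    · simp
  have hu : ∀ (φ : Lau K →+* R) (i j : ℤ), IsUnit (φ (AddMonoidAlgebra.single (i, j) 1)) := by
    intro φ i j
    apply IsUnit.map
    apply IsUnit.of_mul_eq_one (AddMonoidAlgebra.single (-i, -j) 1)
    rw [AddMonoidAlgebra.single_mul_single]
    simp only [Prod.mk_add_mk, add_neg_cancel, mul_one]
    rfl
  have hnat : ∀ k l : ℕ, f (AddMonoidAlgebra.single ((k : ℤ), (l : ℤ)) 1) =
      g (AddMonoidAlgebra.single ((k : ℤ), (l : ℤ)) 1) := by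
    intro k l
    have h3 := hm f 0 0 k l
    have h4 := hm g 0 0 k l
    rw [zero_add, zero_add] at h3 h4
    rw [← h3, ← h4, h1, h2]
    congr 1
    exact h0 1
  have hs : ∀ i j : ℤ, f (AddMonoidAlgebra.single (i, j) 1) =
      g (AddMonoidAlgebra.single (i, j) 1) := by
    intro i j
    have h3 := hm f i j i.natAbs j.natAbs
    have h4 := hm g i j i.natAbs j.natAbs
    have e1 : i + (i.natAbs : ℤ) = ((i + i.natAbs).toNat : ℤ) := by omega
    have e2 : j + (j.natAbs : ℤ) = ((j + j.natAbs).toNat : ℤ) := by omega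
    rw [e1, e2] at h3 h4
    rw [hnat, ← h4, h1, h2] at h3
    have hu1 : IsUnit (g (AddMonoidAlgebra.single (1, 0) 1) ^ i.natAbs *
        g (AddMonoidAlgebra.single (0, 1) 1) ^ j.natAbs) :=
      ((hu g 1 0).pow _).mul ((hu g 0 1).pow _)
    exact hu1.mul_right_cancel h3
  apply AddMonoidAlgebra.ringHom_ext
  · exact h0
  · rintro ⟨i, j⟩
    exact hs i j

theorem isUnit_xU (x : K) (hx : x ≠ 0) :
    IsUnit (PowerSeries.C x + PowerSeries.X : PowerSeries K) :=
  PowerSeries.isUnit_iff_constantCoeff.2 (by simpa using hx)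

/-- the unit `x + u` -/
noncomputable def xU (x : K) (hx : x ≠ 0) : (PowerSeries K)ˣ := (isUnit_xU x hx).unit

theorem xU_val (x : K) (hx : x ≠ 0) :
    ((xU x hx : (PowerSeries K)ˣ) : PowerSeries K) = PowerSeries.C x + PowerSeries.X :=
  IsUnit.unit_spec _

theorem isUnit_yU (A : Type*) [CommRing A] : IsUnit (1 + PowerSeries.X : PowerSeries A) :=
  PowerSeries.isUnit_iff_constantCoeff.2 (by simp)

/-- the unit `1 + X` -/
noncomputable def yU (A : Type*) [CommRing A] : (PowerSeries A)ˣ := (isUnit_yU A).unit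

theorem yU_val (A : Type*) [CommRing A] :
    ((yU A : (PowerSeries A)ˣ) : PowerSeries A) = 1 + PowerSeries.X :=
  IsUnit.unit_spec _

/-- the substitution `x ↦ x0 + u`, `y ↦ 1 + X` -/
noncomputable def Psi (x : K) (hx : x ≠ 0) : Lau K →+* PowerSeries (PowerSeries K) :=
  AddMonoidAlgebra.liftNCRingHom ((PowerSeries.C (R := PowerSeries K)).comp PowerSeries.C)
    { toFun := fun m => PowerSeries.C (((xU x hx) ^ m.toAdd.1 : (PowerSeries K)ˣ) : PowerSeries K) *
        (((yU (PowerSeries K)) ^ m.toAdd.2 : (PowerSeries (PowerSeries K))ˣ) :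
          PowerSeries (PowerSeries K))
      map_one' := by simp
      map_mul' := by
        intro m m'
        simp only [toAdd_mul, Prod.fst_add, Prod.snd_add]
        rw [zpow_add, zpow_add, Units.val_mul, Units.val_mul, map_mul]
        ring }
    (fun _ _ => Commute.all _ _)

theorem Psi_single (x : K) (hx : x ≠ 0) (m : ℤ × ℤ) (c : K) :
    Psi x hx (AddMonoidAlgebra.single m c) = PowerSeries.C (PowerSeries.C c) *
      (PowerSeries.C (((xU x hx) ^ m.1 : (PowerSeries K)ˣ) : PowerSeries K) *
        (((yU (PowerSeries K)) ^ m.2 : (PowerSeries (PowerSeries K))ˣ) :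
          PowerSeries (PowerSeries K))) := by
  unfold Psi
  rw [AddMonoidAlgebra.liftNCRingHom_single]
  rfl

theorem coeff_Psi_single (x : K) (hx : x ≠ 0) (a : ℤ) (b : ℕ) (c : K) (k : ℕ) :
    PowerSeries.coeff k (Psi x hx (AddMonoidAlgebra.single (a, (b : ℤ)) c)) =
      PowerSeries.C (c * (b.choose k : K)) *
        (((xU x hx) ^ a : (PowerSeries K)ˣ) : PowerSeries K) := by
  rw [Psi_single]
  simp only
  rw [PowerSeries.coeff_C_mul, PowerSeries.coeff_C_mul, zpow_natCast, Units.val_pow_eq_pow_val,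
    yU_val]
  have h : PowerSeries.coeff k ((1 + PowerSeries.X : PowerSeries (PowerSeries K)) ^ b) =
      (b.choose k : PowerSeries K) := by
    have h1 : ((1 + PowerSeries.X : PowerSeries (PowerSeries K)) ^ b) =
        (((1 + Polynomial.X : Polynomial (PowerSeries K)) ^ b : Polynomial (PowerSeries K)) :
          PowerSeries (PowerSeries K)) := by
      rw [Polynomial.coe_pow, Polynomial.coe_add, Polynomial.coe_one, Polynomial.coe_X]
    rw [h1, Polynomial.coeff_coe, Polynomial.coeff_one_add_X_pow]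
  rw [h]
  have h2 : ((b.choose k : ℕ) : PowerSeries K) = PowerSeries.C ((b.choose k : ℕ) : K) := by simp
  rw [h2, map_mul]
  ring

/-- the ideal of functions vanishing to order `r` along a germ -/
noncomputable def Jd {R : Type*} [CommRing R] (φ : R →+* PowerSeries K) (r : ℕ) : Ideal R :=
  Ideal.comap φ (Ideal.span {(PowerSeries.X : PowerSeries K) ^ r})

theorem Psi_mem {x : K} (hx : x ≠ 0) {φ : Lau K →+* PowerSeries K}
    (h0 : ∀ c, φ (AddMonoidAlgebra.single 0 c) = PowerSeries.C c)
    (h1 : φ (AddMonoidAlgebra.single (1, 0) 1) = PowerSeries.C x + PowerSeries.X)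
    (h2 : φ (AddMonoidAlgebra.single (0, 1) 1) = 1) {r w : ℕ} {f : Lau K} (hf : f ∈ Jd φ r ^ w) :
    Psi x hx f ∈ FI (PowerSeries.X : PowerSeries K) r w := by
  have hφ : φ = (PowerSeries.constantCoeff (R := PowerSeries K)).comp (Psi x hx) := by
    apply ringHom_ext2
    · intro c
      rw [h0, RingHom.comp_apply, Psi_single]
      simp
    · rw [h1, RingHom.comp_apply, Psi_single]
      simp [xU_val]
    · rw [h2, RingHom.comp_apply, Psi_single]
      simp [yU_val]
  have hle : Jd φ r ≤ Ideal.comap (Psi x hx) (FI (PowerSeries.X : PowerSeries K) r 1) := by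
    intro g hg
    have hg' : φ g ∈ Ideal.span {(PowerSeries.X : PowerSeries K) ^ r} := hg
    rw [Ideal.mem_span_singleton] at hg'
    show Psi x hx g ∈ FI (PowerSeries.X : PowerSeries K) r 1
    rw [mem_FI]
    intro k
    rcases k with _ | k
    · rw [Nat.sub_zero, mul_one]
      rw [hφ] at hg'
      simpa using hg'
    · have : 1 - (k + 1) = 0 := by omega
      rw [this]
      simp
  have h3 := Ideal.pow_right_mono hle w hf
  have h4 := Ideal.le_comap_pow (Psi x hx) w h3
  exact FI_pow _ r w h4

end germ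

/-- the final step: if every row of `S` is shorter than the number of conditions on it, then there
is no nonzero Laurent polynomial -/
theorem final_rows {K : Type} [Field K] {ι : Type*} [Fintype ι] {x : ι → K}
    (hinj : Function.Injective x) (hx : ∀ i, x i ≠ 0) {φ : ι → Lau K →+* PowerSeries K}
    (h0 : ∀ i c, φ i (AddMonoidAlgebra.single 0 c) = PowerSeries.C c)
    (h1 : ∀ i, φ i (AddMonoidAlgebra.single (1, 0) 1) = PowerSeries.C (x i) + PowerSeries.X)
    (h2 : ∀ i, φ i (AddMonoidAlgebra.single (0, 1) 1) = 1) {r w : ι → ℕ} {S : Set (ℤ × ℤ)}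
    (hS0 : ∀ m ∈ S, 0 ≤ m.2)
    (hrow : ∀ (k : ℕ), ∀ m ∈ S, ∀ m' ∈ S, (k : ℤ) ≤ m.2 → (k : ℤ) ≤ m'.2 →
      m'.1 - m.1 < ∑ i, ((r i * (w i - k) : ℕ) : ℤ))
    {f : Lau K} (hfS : (↑f.coeff.support : Set (ℤ × ℤ)) ⊆ S)
    (hf : ∀ i, f ∈ Jd (φ i) (r i) ^ w i) : f = 0 := by
  classical
  by_contra hne
  -- the rows
  let row : ℕ → ℤ → K := fun k a => ∑ m ∈ f.coeff.support with m.1 = a,
    f.coeff m * (m.2.toNat.choose k : K)
  have hrow0 : ∃ k a, row k a ≠ 0 := by
    have hfne : f.coeff ≠ 0 := fun h => hne (AddMonoidAlgebra.coeff_injective (by simpa using h))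
    obtain ⟨m0, hm0⟩ := Finsupp.support_nonempty_iff.2 hfne
    obtain ⟨m1, hm1, hmax⟩ := Finset.exists_max_image
      (f.coeff.support.filter (fun m => m.1 = m0.1)) (fun m => m.2)
      ⟨m0, mem_filter.2 ⟨hm0, rfl⟩⟩
    rw [mem_filter] at hm1
    refine ⟨m1.2.toNat, m0.1, ?_⟩
    show (∑ m ∈ f.coeff.support with m.1 = m0.1, f.coeff m * (m.2.toNat.choose m1.2.toNat : K)) ≠ 0
    rw [sum_eq_single m1]
    · rw [Nat.choose_self, Nat.cast_one, mul_one]
      exact Finsupp.mem_support_iff.1 hm1.1
    · intro m hm hmm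
      have h3 := hmax m hm
      rw [mem_filter] at hm
      have h4 := hS0 m (hfS hm.1)
      have h5 := hS0 m1 (hfS hm1.1)
      have h6 : m.2 ≠ m1.2 := by
        intro h
        apply hmm
        ext
        · rw [hm.2, hm1.2]
        · exact h
      have h7 : m.2.toNat < m1.2.toNat := by omega
      rw [Nat.choose_eq_zero_of_lt h7]
      simp
    · intro h
      exact absurd (mem_filter.2 hm1) h
  obtain ⟨k, a0, hka⟩ := hrow0
  -- the support of the row
  let A0 : Finset ℤ := (f.coeff.support.image Prod.fst).filter (fun a => row k a ≠ 0)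
  have hA0 : ∀ a, row k a ≠ 0 → a ∈ A0 ∧ ∃ m ∈ f.coeff.support, m.1 = a ∧ (k : ℤ) ≤ m.2 := by
    intro a ha
    obtain ⟨m, hm, hm'⟩ := Finset.exists_ne_zero_of_sum_ne_zero ha
    rw [mem_filter] at hm
    refine ⟨mem_filter.2 ⟨mem_image.2 ⟨m, hm.1, hm.2⟩, ha⟩, m, hm.1, hm.2, ?_⟩
    by_contra hlt
    apply hm'
    have h5 := hS0 m (hfS hm.1)
    rw [Nat.choose_eq_zero_of_lt (by omega)]
    simp
  have hne0 : A0.Nonempty := ⟨a0, (hA0 a0 hka).1⟩
  obtain ⟨a1, ha1, hmin⟩ := Finset.exists_min_image A0 (fun a => a) hne0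
  obtain ⟨a2, ha2, hmax⟩ := Finset.exists_max_image A0 (fun a => a) hne0
  have hr1 : row k a1 ≠ 0 := (mem_filter.1 ha1).2
  have hr2 : row k a2 ≠ 0 := (mem_filter.1 ha2).2
  obtain ⟨m1, hm1, hm1a, hm1k⟩ := (hA0 a1 hr1).2
  obtain ⟨m2, hm2, hm2a, hm2k⟩ := (hA0 a2 hr2).2
  have hwid := hrow k m1 (hfS hm1) m2 (hfS hm2) hm1k hm2k
  rw [hm1a, hm2a] at hwid
  -- the polynomial of the row
  let h : Polynomial K := ∑ a ∈ A0, Polynomial.monomial (a - a1).toNat (row k a)
  have hh0 : h ≠ 0 := by
    intro h3
    have h4 : h.coeff 0 = row k a1 := by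
      show (∑ a ∈ A0, Polynomial.monomial (a - a1).toNat (row k a)).coeff 0 = row k a1
      rw [Polynomial.finsetSum_coeff, sum_eq_single a1]
      · simp
      · intro b hb hb1
        rw [Polynomial.coeff_monomial, if_neg]
        have := hmin b hb
        omega
      · intro h5; exact absurd ha1 h5
    rw [h3, Polynomial.coeff_zero] at h4
    exact hr1 h4.symm
  have hdeg : (h.natDegree : ℤ) ≤ a2 - a1 := by
    have h3 : h.natDegree ≤ (a2 - a1).toNat := by
      apply Polynomial.natDegree_sum_le_of_forall_le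
      intro a ha
      refine (Polynomial.natDegree_monomial_le _).trans ?_
      have := hmax a ha
      omega
    have := hmin a2 ha2
    omega
  have hdvd : ∀ i, (Polynomial.X - Polynomial.C (x i)) ^ (r i * (w i - k)) ∣ h := by
    intro i
    have h3 := (mem_FI.1 (Psi_mem (hx i) (h0 i) (h1 i) (h2 i) (hf i))) k
    have h4 : PowerSeries.coeff k (Psi (x i) (hx i) f) =
        ∑ a ∈ A0, PowerSeries.C (row k a) *
          (((xU (x i) (hx i)) ^ a : (PowerSeries K)ˣ) : PowerSeries K) := by
      have h5 : f = ∑ m ∈ f.coeff.support, AddMonoidAlgebra.single m (f.coeff m) := by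
        apply AddMonoidAlgebra.coeff_injective
        rw [AddMonoidAlgebra.coeff_sum]
        conv_lhs => rw [← Finsupp.sum_single f.coeff]
        rfl
      conv_lhs => rw [h5, map_sum, map_sum]
      have h6 : ∀ m ∈ f.coeff.support, PowerSeries.coeff k
          (Psi (x i) (hx i) (AddMonoidAlgebra.single m (f.coeff m))) =
          PowerSeries.C (f.coeff m * (m.2.toNat.choose k : K)) *
            (((xU (x i) (hx i)) ^ m.1 : (PowerSeries K)ˣ) : PowerSeries K) := by
        intro m hm
        have h7 : m = (m.1, ((m.2.toNat : ℕ) : ℤ)) := by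
          have := hS0 m (hfS hm)
          ext
          · rfl
          · simp only; omega
        conv_lhs => rw [h7]
        rw [coeff_Psi_single]
        rw [← h7]
      rw [sum_congr rfl h6]
      have h8 : ∑ m ∈ f.coeff.support, PowerSeries.C (f.coeff m * (m.2.toNat.choose k : K)) *
            (((xU (x i) (hx i)) ^ m.1 : (PowerSeries K)ˣ) : PowerSeries K) =
          ∑ a ∈ f.coeff.support.image Prod.fst, PowerSeries.C (row k a) *
            (((xU (x i) (hx i)) ^ a : (PowerSeries K)ˣ) : PowerSeries K) := by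
        rw [← sum_fiberwise_of_maps_to (g := Prod.fst) (t := f.coeff.support.image Prod.fst)
          (fun m hm => mem_image_of_mem _ hm)]
        apply sum_congr rfl
        intro a _
        show _ = PowerSeries.C (∑ m ∈ f.coeff.support with m.1 = a,
          f.coeff m * (m.2.toNat.choose k : K)) * _
        rw [map_sum, sum_mul]
        apply sum_congr rfl
        intro m hm
        rw [(mem_filter.1 hm).2]
      rw [h8]
      symm
      apply sum_subset (filter_subset _ _)
      intro a ha hna
      have : row k a = 0 := by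
        by_contra h9
        exact hna (mem_filter.2 ⟨ha, h9⟩)
      rw [this]; simp
    have h5 : PowerSeries.coeff k (Psi (x i) (hx i) f) =
        (((xU (x i) (hx i)) ^ a1 : (PowerSeries K)ˣ) : PowerSeries K) *
          ((Polynomial.taylor (x i) h : Polynomial K) : PowerSeries K) := by
      rw [h4]
      have h6 : ((Polynomial.taylor (x i) h : Polynomial K) : PowerSeries K) =
          ∑ a ∈ A0, PowerSeries.C (row k a) *
            (((xU (x i) (hx i)) ^ (a - a1).toNat : (PowerSeries K)ˣ) : PowerSeries K) := by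
        show ((Polynomial.taylor (x i) (∑ a ∈ A0, Polynomial.monomial (a - a1).toNat (row k a)) :
          Polynomial K) : PowerSeries K) = _
        have h9 : ∀ (s : Finset ℤ) (g : ℤ → Polynomial K),
            ((∑ a ∈ s, g a : Polynomial K) : PowerSeries K) =
              ∑ a ∈ s, ((g a : Polynomial K) : PowerSeries K) := fun s g =>
          map_sum (Polynomial.coeToPowerSeries.ringHom (R := K)) g s
        rw [map_sum, h9]
        apply sum_congr rfl
        intro a _
        rw [Polynomial.taylor_monomial, Polynomial.coe_mul, Polynomial.coe_pow, Polynomial.coe_C,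
          Polynomial.coe_add, Polynomial.coe_X, Polynomial.coe_C, Units.val_pow_eq_pow_val, xU_val,
          add_comm PowerSeries.X]
      rw [h6, mul_sum]
      apply sum_congr rfl
      intro a ha
      have h7 := hmin a ha
      have h8 : (xU (x i) (hx i)) ^ a = (xU (x i) (hx i)) ^ a1 * (xU (x i) (hx i)) ^ (a - a1).toNat := by
        rw [← zpow_natCast, ← zpow_add]
        congr 1
        omega
      rw [h8, Units.val_mul]; ring
    rw [h5, (Units.isUnit _).dvd_mul_left] at h3
    have h6 : (Polynomial.X : Polynomial K) ^ (r i * (w i - k)) ∣ Polynomial.taylor (x i) h := by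
      rw [Polynomial.X_pow_dvd_iff]
      rw [PowerSeries.X_pow_dvd_iff] at h3
      intro d hd
      have := h3 d hd
      rwa [Polynomial.coeff_coe] at this
    obtain ⟨q, hq⟩ := h6
    refine ⟨Polynomial.taylor (-(x i)) q, ?_⟩
    have h7 : Polynomial.taylor (-(x i)) (Polynomial.taylor (x i) h) = h := by
      rw [Polynomial.taylor_taylor, neg_add_cancel, Polynomial.taylor_zero]
    rw [← h7, hq, Polynomial.taylor_mul, Polynomial.taylor_pow, Polynomial.taylor_X]
    rw [Polynomial.C_neg, ← sub_eq_add_neg]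
  have hprod : (∏ i, (Polynomial.X - Polynomial.C (x i)) ^ (r i * (w i - k))) ∣ h := by
    apply Finset.prod_dvd_of_coprime
    · intro i _ j _ hij
      exact (Polynomial.pairwise_coprime_X_sub_C hinj hij).pow
    · intro i _
      exact hdvd i
  have h3 := Polynomial.natDegree_le_of_dvd hprod hh0
  rw [Polynomial.natDegree_prod_of_monic _ _ (fun i _ => (Polynomial.monic_X_sub_C _).pow _)] at h3
  simp_rw [Polynomial.natDegree_pow, Polynomial.natDegree_X_sub_C, mul_one] at h3
  have h4 : ((∑ i, r i * (w i - k) : ℕ) : ℤ) ≤ h.natDegree := by exact_mod_cast h3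
  push_cast [Nat.cast_sum] at h4
  push_cast at hwid
  linarith

end Pool.Agent.TH98.CF
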